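import Pool.Agent.Helper41.FA.F2bc
import Pool.Agent.Helper46.FA.Far

/-!
Tail of the series of the square wave (module F3t).
-/

set_option autoImplicit false

open MeasureTheory Set Real

namespace Pool.Agent.Helper89.FA

namespace TailB

/-- Upper bound for `exp (-a)`. -/
lemma exp_neg_bd (n : ℕ) {a f b : ℝ} (hf : 0 ≤ f) (ha : (n : ℝ) + f ≤ a)
    (hb : 1 ≤ b * ((2.7182818283 : ℝ) ^ n * (1 + f + f ^ 2 / 2 + f ^ 3 / 6))) : exp (-a) ≤ b := by
  have h1 : (2.7182818283 : ℝ) ^ n ≤ exp n := by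
    have := Real.exp_one_gt_d9
    calc (2.7182818283 : ℝ) ^ n ≤ (exp 1) ^ n := by
          apply pow_le_pow_left₀ (by norm_num)
          exact this.le
      _ = exp n := by rw [← Real.exp_nat_mul]; simp
  have h2 : 1 + f + f ^ 2 / 2 + f ^ 3 / 6 ≤ exp f := by
    have := Real.sum_le_exp_of_nonneg hf 4
    simp [Finset.sum_range_succ, Nat.factorial] at this
    linarith
  have h3 : (2.7182818283 : ℝ) ^ n * (1 + f + f ^ 2 / 2 + f ^ 3 / 6) ≤ exp a := by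
    calc (2.7182818283 : ℝ) ^ n * (1 + f + f ^ 2 / 2 + f ^ 3 / 6) ≤ exp n * exp f := by
          apply mul_le_mul h1 h2 (by positivity) (by positivity)
      _ = exp (n + f) := by rw [Real.exp_add]
      _ ≤ exp a := Real.exp_le_exp.mpr ha
  have hpos : 0 < (2.7182818283 : ℝ) ^ n * (1 + f + f ^ 2 / 2 + f ^ 3 / 6) := by positivity
  have hb0 : 0 ≤ b := by
    by_contra h
    push Not at h
    nlinarith
  rw [Real.exp_neg]
  rw [inv_le_iff_one_le_mul₀ (exp_pos a)]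
  calc (1 : ℝ) ≤ b * ((2.7182818283 : ℝ) ^ n * (1 + f + f ^ 2 / 2 + f ^ 3 / 6)) := hb
    _ ≤ b * exp a := by apply mul_le_mul_of_nonneg_left h3 hb0

/-- The product over a finite set of coordinates. -/
lemma prod_bd {n : ℕ} (x : Fin n → ℝ) (s : Finset (Fin n)) {K m c r : ℝ} (hK : 0 ≤ K) (hc : 0 ≤ c)
    (hr : r ≤ ∑ j ∈ s, x j ^ 2) (hm : ∀ j ∈ s, |x j| ≤ m)
    (hs : ∀ z : ℝ, |z| ≤ K * m → |sinc z| ≤ exp (-(c * z ^ 2))) :
    ∏ j ∈ s, |sinc (K * x j)| ≤ exp (-(c * K ^ 2 * r)) := by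
  calc ∏ j ∈ s, |sinc (K * x j)| ≤ ∏ j ∈ s, exp (-(c * (K * x j) ^ 2)) := by
        apply Finset.prod_le_prod
        · intro j _; positivity
        · intro j hj
          apply hs
          rw [abs_mul, abs_of_nonneg hK]
          exact mul_le_mul_of_nonneg_left (hm j hj) hK
    _ = exp (∑ j ∈ s, -(c * (K * x j) ^ 2)) := by rw [Real.exp_sum]
    _ ≤ exp (-(c * K ^ 2 * r)) := by
        apply Real.exp_le_exp.mpr
        have : ∑ j ∈ s, -(c * (K * x j) ^ 2) = -(c * K ^ 2 * ∑ j ∈ s, x j ^ 2) := by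
          rw [Finset.mul_sum, ← Finset.sum_neg_distrib]
          apply Finset.sum_congr rfl
          intro j _; ring
        rw [this]
        have : c * K ^ 2 * r ≤ c * K ^ 2 * ∑ j ∈ s, x j ^ 2 :=
          mul_le_mul_of_nonneg_left hr (by positivity)
        linarith

lemma prod_all {n : ℕ} (x : Fin n → ℝ) {K m c r : ℝ} (hK : 0 ≤ K) (hc : 0 ≤ c)
    (hr : r ≤ ∑ j, x j ^ 2) (hm : ∀ j, |x j| ≤ m)
    (hs : ∀ z : ℝ, |z| ≤ K * m → |sinc z| ≤ exp (-(c * z ^ 2))) :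
    |∏ j, sinc (K * x j)| ≤ exp (-(c * K ^ 2 * r)) := by
  rw [Finset.abs_prod]
  exact prod_bd x Finset.univ hK hc hr (fun j _ => hm j) hs

lemma prod_one {n : ℕ} (x : Fin n → ℝ) (i : Fin n) {K m c r s : ℝ} (hK : 0 ≤ K) (hc : 0 ≤ c)
    (hr : r ≤ ∑ j ∈ Finset.univ.erase i, x j ^ 2) (hm : ∀ j, j ≠ i → |x j| ≤ m)
    (hs : ∀ z : ℝ, |z| ≤ K * m → |sinc z| ≤ exp (-(c * z ^ 2))) (hi : |sinc (K * x i)| ≤ s) :
    |∏ j, sinc (K * x j)| ≤ s * exp (-(c * K ^ 2 * r)) := by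
  rw [Finset.abs_prod, ← Finset.mul_prod_erase Finset.univ _ (Finset.mem_univ i)]
  have h := prod_bd x (Finset.univ.erase i) hK hc hr
    (fun j hj => hm j (Finset.ne_of_mem_erase hj)) hs
  exact mul_le_mul hi h (by positivity) (le_trans (abs_nonneg _) hi)

/-- Splitting the first three terms. -/
lemma split3 {n : ℕ} (x : Fin n → ℝ) {e5 e7 e9 F : ℝ}
    (h5 : |∏ j, sinc (5 * x j)| ≤ e5) (h7 : |∏ j, sinc (7 * x j)| ≤ e7)
    (h9 : |∏ j, sinc (9 * x j)| ≤ e9)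
    (hF : Summable (fun k : ℕ => |∏ j, sinc ((2 * ((k + 5 : ℕ) : ℝ) + 1) * x j)| /
        (2 * ((k + 5 : ℕ) : ℝ) + 1)) ∧
      ∑' k : ℕ, |∏ j, sinc ((2 * ((k + 5 : ℕ) : ℝ) + 1) * x j)| /
        (2 * ((k + 5 : ℕ) : ℝ) + 1) ≤ F) :
    Summable (fun k : ℕ => |∏ j, sinc ((2 * ((k + 2 : ℕ) : ℝ) + 1) * x j)| / (2 * ((k + 2 : ℕ) : ℝ) + 1)) ∧
    ∑' k : ℕ, |∏ j, sinc ((2 * ((k + 2 : ℕ) : ℝ) + 1) * x j)| / (2 * ((k + 2 : ℕ) : ℝ) + 1) ≤
      e5 / 5 + e7 / 7 + e9 / 9 + F := by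
  set f : ℕ → ℝ := fun k : ℕ => |∏ j, sinc ((2 * ((k + 2 : ℕ) : ℝ) + 1) * x j)| /
    (2 * ((k + 2 : ℕ) : ℝ) + 1) with hf
  have hs3 : Summable (fun k => f (k + 3)) := hF.1
  have hs : Summable f := (summable_nat_add_iff 3).mp hs3
  refine ⟨hs, ?_⟩
  rw [← hs.sum_add_tsum_nat_add 3]
  have h3 : ∑' k, f (k + 3) ≤ F := hF.2
  have e0 : f 0 = |∏ j, sinc (5 * x j)| / 5 := by
    simp only [hf]; norm_num
  have e1 : f 1 = |∏ j, sinc (7 * x j)| / 7 := by
    simp only [hf]; norm_num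
  have e2 : f 2 = |∏ j, sinc (9 * x j)| / 9 := by
    simp only [hf]; norm_num
  rw [Finset.sum_range_succ, Finset.sum_range_succ, Finset.sum_range_succ, Finset.sum_range_zero,
    e0, e1, e2]
  have a5 : |∏ j, sinc (5 * x j)| / 5 ≤ e5 / 5 := by gcongr
  have a7 : |∏ j, sinc (7 * x j)| / 7 ≤ e7 / 7 := by gcongr
  have a9 : |∏ j, sinc (9 * x j)| / 9 ≤ e9 / 9 := by gcongr
  linarith

/-- One piece. -/
lemma piece {n : ℕ} (x : Fin n → ℝ) (i : Fin n) {x0 m r s5 s7 s9 c5 c7 c9 b5 b7 b9 L B M2 : ℝ}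
    (hx0 : 0 < x0) (hi : x0 ≤ |x i|)
    (hr : r ≤ ∑ j ∈ Finset.univ.erase i, x j ^ 2) (hm : ∀ j, j ≠ i → |x j| ≤ m)
    (hm1 : π ≤ 11 * m) (hE : 2 * m ^ 2 ≤ r) (hc5 : 0 ≤ c5) (hc7 : 0 ≤ c7) (hc9 : 0 ≤ c9)
    (h5 : ∀ z : ℝ, |z| ≤ 5 * m → |sinc z| ≤ exp (-(c5 * z ^ 2)))
    (h7 : ∀ z : ℝ, |z| ≤ 7 * m → |sinc z| ≤ exp (-(c7 * z ^ 2)))
    (h9 : ∀ z : ℝ, |z| ≤ 9 * m → |sinc z| ≤ exp (-(c9 * z ^ 2)))
    (i5 : |sinc (5 * x i)| ≤ s5) (i7 : |sinc (7 * x i)| ≤ s7) (i9 : |sinc (9 * x i)| ≤ s9)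
    (n5 : exp (-(c5 * 5 ^ 2 * r)) ≤ b5) (n7 : exp (-(c7 * 7 ^ 2 * r)) ≤ b7)
    (n9 : exp (-(c9 * 9 ^ 2 * r)) ≤ b9) (hL : exp L ≤ 11 * m)
    (hB : exp (-((r / m ^ 2 - 2) * L)) ≤ B) (hM2 : 0 < M2) (hM : M2 ≤ m ^ 2) :
    Summable (fun k : ℕ => |∏ j, sinc ((2 * ((k + 2 : ℕ) : ℝ) + 1) * x j)| / (2 * ((k + 2 : ℕ) : ℝ) + 1)) ∧
    ∑' k : ℕ, |∏ j, sinc ((2 * ((k + 2 : ℕ) : ℝ) + 1) * x j)| / (2 * ((k + 2 : ℕ) : ℝ) + 1) ≤
      s5 * b5 / 5 + s7 * b7 / 7 + s9 * b9 / 9 + B / (6000 * M2 * x0) := by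
  have p5 := prod_one x i (by norm_num) hc5 hr hm h5 i5
  have p7 := prod_one x i (by norm_num) hc7 hr hm h7 i7
  have p9 := prod_one x i (by norm_num) hc9 hr hm h9 i9
  have q5 : |∏ j, sinc (5 * x j)| ≤ s5 * b5 :=
    p5.trans (mul_le_mul_of_nonneg_left n5 (le_trans (abs_nonneg _) i5))
  have q7 : |∏ j, sinc (7 * x j)| ≤ s7 * b7 :=
    p7.trans (mul_le_mul_of_nonneg_left n7 (le_trans (abs_nonneg _) i7))
  have q9 : |∏ j, sinc (9 * x j)| ≤ s9 * b9 :=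
    p9.trans (mul_le_mul_of_nonneg_left n9 (le_trans (abs_nonneg _) i9))
  have hm0 : 0 < m := by
    have := Real.pi_pos
    linarith
  have hfar := far_one x i hx0 hi hr hm hm1 hE
  refine split3 x q5 q7 q9 ⟨hfar.1, hfar.2.trans ?_⟩
  have hm2 : 0 < m ^ 2 := by positivity
  have hq : 0 ≤ r / m ^ 2 - 2 := by
    rw [sub_nonneg, le_div_iff₀ hm2]; exact hE
  have hlog : L ≤ log (11 * m) := by
    rw [Real.le_log_iff_exp_le (by positivity)]; exact hL
  have h1 : exp (-(r / m ^ 2 - 2) * log (11 * m)) ≤ B := by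
    refine le_trans (Real.exp_le_exp.mpr ?_) hB
    have := mul_le_mul_of_nonneg_left hlog hq
    linarith
  have hB0 : 0 ≤ B := le_trans (exp_pos _).le hB
  have h2 : 6000 * M2 * x0 ≤ 6000 * m ^ 2 * x0 := by
    have : M2 * x0 ≤ m ^ 2 * x0 := mul_le_mul_of_nonneg_right hM hx0.le
    linarith
  calc exp (-(r / m ^ 2 - 2) * log (11 * m)) / (6000 * m ^ 2 * x0)
      ≤ B / (6000 * m ^ 2 * x0) := by gcongr
    _ ≤ B / (6000 * M2 * x0) := by
        apply div_le_div_of_nonneg_left hB0 (by positivity) h2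

lemma sum_erase_ge {n : ℕ} (x : Fin n → ℝ) (i : Fin n) {w x1 : ℝ} (hw0 : w ≤ ∑ j, x j ^ 2)
    (h1 : |x i| ≤ x1) : w - x1 ^ 2 ≤ ∑ j ∈ Finset.univ.erase i, x j ^ 2 := by
  have h : x i ^ 2 + ∑ j ∈ Finset.univ.erase i, x j ^ 2 = ∑ j, x j ^ 2 :=
    Finset.add_sum_erase Finset.univ (fun j => x j ^ 2) (Finset.mem_univ i)
  have h2 : x i ^ 2 ≤ x1 ^ 2 := by
    rw [← sq_abs]
    exact pow_le_pow_left₀ (abs_nonneg _) h1 2
  linarith

lemma sinc_inv_bd {K y s y0 : ℝ} (hK : 0 < K) (hy0 : 0 < y0) (hy : y0 ≤ |y|)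
    (hs : 1 ≤ s * (K * y0)) : |sinc (K * y)| ≤ s := by
  have hyy : 0 < |y| := lt_of_lt_of_le hy0 hy
  have hy1 : y ≠ 0 := abs_pos.mp hyy
  have hne : K * y ≠ 0 := mul_ne_zero hK.ne' hy1
  have h1 : |sinc (K * y)| ≤ 1 / |K * y| := by
    rw [Real.sinc_of_ne_zero hne, abs_div]
    have := Real.abs_sin_le_one (K * y)
    gcongr
  refine h1.trans ?_
  rw [abs_mul, abs_of_pos hK, div_le_iff₀ (by positivity)]
  have hs0 : 0 ≤ s := by
    by_contra h
    push Not at h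
    have : 0 < K * y0 := by positivity
    nlinarith
  calc (1 : ℝ) ≤ s * (K * y0) := hs
    _ ≤ s * (K * |y|) := by gcongr

/-- The statement of the tail bound with a constant. -/
def TB {n : ℕ} (x : Fin n → ℝ) (c : ℝ) : Prop :=
  Summable (fun k : ℕ => |∏ j, sinc ((2 * ((k + 2 : ℕ) : ℝ) + 1) * x j)| / (2 * ((k + 2 : ℕ) : ℝ) + 1)) ∧
    ∑' k : ℕ, |∏ j, sinc ((2 * ((k + 2 : ℕ) : ℝ) + 1) * x j)| / (2 * ((k + 2 : ℕ) : ℝ) + 1) ≤ c

lemma TB.mono {n : ℕ} {x : Fin n → ℝ} {c d : ℝ} (h : TB x c) (hcd : c ≤ d) : TB x d :=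
  ⟨h.1, h.2.trans hcd⟩

lemma pi_b : 3.1415 < π ∧ π < 3.1416 := ⟨by have := Real.pi_gt_d4; linarith, by have := Real.pi_lt_d4; linarith⟩

lemma P1 {n : ℕ} (x : Fin n → ℝ) (i : Fin n) (hw0 : 2.3715 ≤ ∑ j, x j ^ 2)
    (h2 : ∀ j, |x j| ≤ |x i|) (h : |x i| ≤ π / 4) : TB x 0.0008 := by
  obtain ⟨p1, p2⟩ := pi_b
  have hm : ∀ j, |x j| ≤ π / 4 := fun j => (h2 j).trans h
  have q5 := prod_all x (K := 5) (by norm_num) (c := 0.1105) (by norm_num) hw0 hm
    (fun z hz => abs_sinc_393 (by linarith))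
  have q7 := prod_all x (K := 7) (by norm_num) (c := 0.064) (by norm_num) hw0 hm
    (fun z hz => abs_sinc_550 (by linarith))
  have q9 := prod_all x (K := 9) (by norm_num) (c := 0.045) (by norm_num) hw0 hm
    (fun z hz => abs_sinc_707 (by linarith))
  have e5 : exp (-(0.1105 * 5 ^ 2 * 2.3715)) ≤ (0.00144 : ℝ) :=
    exp_neg_bd 6 (f := 0.551) (by norm_num) (by norm_num) (by norm_num)
  have e7 : exp (-(0.064 * 7 ^ 2 * 2.3715)) ≤ (0.0006 : ℝ) :=
    exp_neg_bd 7 (f := 0.437) (by norm_num) (by norm_num) (by norm_num)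
  have e9 : exp (-(0.045 * 9 ^ 2 * 2.3715)) ≤ (0.00018 : ℝ) :=
    exp_neg_bd 8 (f := 0.644) (by norm_num) (by norm_num) (by norm_num)
  have hsq : (π / 4) ^ 2 ≤ 0.7854 ^ 2 := by
    apply pow_le_pow_left₀ (by positivity); linarith
  have hfar := far_all x hw0 hm (by linarith) (by linarith)
  have hfar2 : exp (-(2.3715 / (π / 4) ^ 2 - 3) * log (11 * (π / 4))) / (6000 * (π / 4) ^ 3) ≤
      0.000345 := by
    have hq : 0 ≤ 2.3715 / (π / 4) ^ 2 - 3 := by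
      rw [sub_nonneg, le_div_iff₀ (by positivity)]
      linarith
    have hlog : 0 ≤ log (11 * (π / 4)) := by
      apply Real.log_nonneg; linarith
    have h1 : exp (-(2.3715 / (π / 4) ^ 2 - 3) * log (11 * (π / 4))) ≤ 1 := by
      rw [Real.exp_le_one_iff]
      have := mul_nonneg hq hlog
      linarith
    have hc : (0.785 : ℝ) ^ 3 ≤ (π / 4) ^ 3 := by
      apply pow_le_pow_left₀ (by norm_num); linarith
    rw [div_le_iff₀ (by positivity)]
    have : (1 : ℝ) ≤ 0.000345 * (6000 * 0.785 ^ 3) := by norm_num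
    linarith
  have := split3 x (q5.trans e5) (q7.trans e7) (q9.trans e9) ⟨hfar.1, hfar.2.trans hfar2⟩
  exact TB.mono this (by norm_num)

lemma P2 {n : ℕ} (x : Fin n → ℝ) (i : Fin n) (hw0 : 2.3715 ≤ ∑ j, x j ^ 2)
    (h3 : ∀ j, j ≠ i → |x j| + |x i| ≤ π / 2)
    (ha : π / 4 ≤ |x i|) (hb : |x i| ≤ 0.857) : TB x 0.0008 := by
  obtain ⟨p1, p2⟩ := pi_b
  have hm : ∀ j, j ≠ i → |x j| ≤ π / 4 := fun j hj => by
    have := h3 j hj
    linarith
  have hsq : (π / 4) ^ 2 ≤ 0.7854 ^ 2 := by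
    apply pow_le_pow_left₀ (by positivity); linarith
  have hsq2 : (0.785 : ℝ) ^ 2 ≤ (π / 4) ^ 2 := by
    apply pow_le_pow_left₀ (by norm_num); linarith
  have hr : (1.637051 : ℝ) ≤ ∑ j ∈ Finset.univ.erase i, x j ^ 2 := by
    have := sum_erase_ge x i hw0 hb
    norm_num at this ⊢
    linarith
  have e2 : exp 2 ≤ (8.638 : ℝ) := by
    have : exp 2 = (exp 1) ^ 2 := by rw [← Real.exp_nat_mul]; norm_num
    rw [this]
    have h9 := Real.exp_one_lt_d9
    calc (exp 1) ^ 2 ≤ (2.7182818286 : ℝ) ^ 2 := by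
          apply pow_le_pow_left₀ (exp_pos _).le h9.le
      _ ≤ 8.638 := by norm_num
  have key := piece x i (x0 := 0.785) (m := π / 4) (r := 1.637051) (s5 := 0.218)
    (s7 := 0.18199) (s9 := 0.14155) (c5 := 0.1105) (c7 := 0.064) (c9 := 0.045)
    (b5 := 0.0109) (b7 := 0.00591) (b9 := 0.00261) (L := 2) (B := 0.2716) (M2 := 0.616)
    (by norm_num) (by linarith) hr hm (by linarith) (by linarith) (by norm_num) (by norm_num)
    (by norm_num) (fun z hz => abs_sinc_393 (by linarith)) (fun z hz => abs_sinc_550 (by linarith))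
    (fun z hz => abs_sinc_707 (by linarith))
    (abs_sinc_max (by rw [abs_mul, abs_of_pos (by norm_num : (0:ℝ) < 5)]; linarith))
    (sinc_inv_bd (y0 := 0.785) (by norm_num) (by norm_num) (by linarith) (by norm_num))
    (sinc_inv_bd (y0 := 0.785) (by norm_num) (by norm_num) (by linarith) (by norm_num))
    (exp_neg_bd 4 (f := 0.522) (by norm_num) (by norm_num) (by norm_num))
    (exp_neg_bd 5 (f := 0.133) (by norm_num) (by norm_num) (by norm_num))
    (exp_neg_bd 5 (f := 0.967) (by norm_num) (by norm_num) (by norm_num))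
    (by linarith)
    (by
      refine le_trans (Real.exp_le_exp.mpr ?_)
        (exp_neg_bd 1 (a := 1.3076) (f := 0.3076) (by norm_num) (by norm_num) (by norm_num))
      have hq : (2.6538 : ℝ) ≤ 1.637051 / (π / 4) ^ 2 := by
        rw [le_div_iff₀ (by positivity)]
        norm_num at hsq ⊢
        linarith
      linarith)
    (by norm_num) (by norm_num at hsq2 ⊢; linarith)
  exact TB.mono key (by norm_num)

lemma others {n : ℕ} {x : Fin n → ℝ} {i : Fin n} {x0 m : ℝ}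
    (h3 : ∀ j, j ≠ i → |x j| + |x i| ≤ π / 2) (ha : x0 ≤ |x i|) (hm : 1.5708 - x0 ≤ m) :
    ∀ j, j ≠ i → |x j| ≤ m := fun j hj => by
  have := h3 j hj
  have := pi_b.2
  linarith

lemma P3 {n : ℕ} (x : Fin n → ℝ) (i : Fin n) (hw0 : 2.3715 ≤ ∑ j, x j ^ 2)
    (h3 : ∀ j, j ≠ i → |x j| + |x i| ≤ π / 2)
    (ha : 0.857 ≤ |x i|) (hb : |x i| ≤ 0.95) : TB x 0.0008 := by
  obtain ⟨p1, p2⟩ := pi_b
  have hm : ∀ j, j ≠ i → |x j| ≤ 0.7138 := others h3 ha (by norm_num)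
  have hr : (1.469 : ℝ) ≤ ∑ j ∈ Finset.univ.erase i, x j ^ 2 := by
    have := sum_erase_ge x i hw0 hb
    norm_num at this ⊢
    linarith
  have key := piece x i (x0 := 0.857) (m := 0.7138) (r := 1.469) (s5 := 0.218)
    (s7 := 0.1667) (s9 := 0.1297) (c5 := 1 / 6) (c7 := 0.064) (c9 := 0.045)
    (b5 := 0.0023) (b7 := 0.0101) (b9 := 0.0048) (L := 0) (B := 1) (M2 := 0.7138 ^ 2)
    (by norm_num) (by linarith) hr hm (by linarith) (by norm_num) (by norm_num) (by norm_num)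
    (by norm_num)
    (fun z hz => by
      have := abs_sinc_357 (z := z) (by linarith)
      refine this.trans (le_of_eq ?_)
      congr 1; ring)
    (fun z hz => abs_sinc_550 (by linarith))
    (fun z hz => abs_sinc_707 (by linarith))
    (abs_sinc_max (by rw [abs_mul, abs_of_pos (by norm_num : (0:ℝ) < 5)]; linarith))
    (sinc_inv_bd (y0 := 0.857) (by norm_num) (by norm_num) (by linarith) (by norm_num))
    (sinc_inv_bd (y0 := 0.857) (by norm_num) (by norm_num) (by linarith) (by norm_num))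
    (exp_neg_bd 6 (f := 0.12) (by norm_num) (by norm_num) (by norm_num))
    (exp_neg_bd 4 (f := 0.606) (by norm_num) (by norm_num) (by norm_num))
    (exp_neg_bd 5 (f := 0.354) (by norm_num) (by norm_num) (by norm_num))
    (by rw [Real.exp_zero]; norm_num)
    (by simp)
    (by norm_num) le_rfl
  exact TB.mono key (by norm_num)

lemma exp_one_le : exp 1 ≤ (2.71829 : ℝ) := by
  have := Real.exp_one_lt_d9
  linarith

lemma P4 {n : ℕ} (x : Fin n → ℝ) (i : Fin n) (hw0 : 2.3715 ≤ ∑ j, x j ^ 2)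
    (h3 : ∀ j, j ≠ i → |x j| + |x i| ≤ π / 2)
    (ha : 0.95 ≤ |x i|) (hb : |x i| ≤ 1.05) : TB x 0.0008 := by
  obtain ⟨p1, p2⟩ := pi_b
  have hm : ∀ j, j ≠ i → |x j| ≤ 0.6208 := others h3 ha (by norm_num)
  have hr : (1.269 : ℝ) ≤ ∑ j ∈ Finset.univ.erase i, x j ^ 2 := by
    have := sum_erase_ge x i hw0 hb
    norm_num at this ⊢
    linarith
  have e1 := exp_one_le
  have key := piece x i (x0 := 0.95) (m := 0.6208) (r := 1.269) (s5 := 0.218)
    (s7 := 0.1504) (s9 := 0.117) (c5 := 1 / 6) (c7 := 0.08) (c9 := 0.045)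
    (b5 := 0.00507) (b7 := 0.0071) (b9 := 0.01) (L := 1) (B := 0.276) (M2 := 0.6208 ^ 2)
    (by norm_num) (by linarith) hr hm (by linarith) (by norm_num) (by norm_num) (by norm_num)
    (by norm_num)
    (fun z hz => by
      have := abs_sinc_357 (z := z) (by linarith)
      refine this.trans (le_of_eq ?_)
      congr 1; ring)
    (fun z hz => abs_sinc_435 (by linarith))
    (fun z hz => abs_sinc_707 (by linarith))
    (abs_sinc_max (by rw [abs_mul, abs_of_pos (by norm_num : (0:ℝ) < 5)]; linarith))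
    (sinc_inv_bd (y0 := 0.95) (by norm_num) (by norm_num) (by linarith) (by norm_num))
    (sinc_inv_bd (y0 := 0.95) (by norm_num) (by norm_num) (by linarith) (by norm_num))
    (exp_neg_bd 5 (f := 0.287) (by norm_num) (by norm_num) (by norm_num))
    (exp_neg_bd 4 (f := 0.974) (by norm_num) (by norm_num) (by norm_num))
    (exp_neg_bd 4 (f := 0.625) (by norm_num) (by norm_num) (by norm_num))
    (by linarith)
    (exp_neg_bd 1 (f := 0.2926) (by norm_num) (by norm_num) (by norm_num))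
    (by norm_num) le_rfl
  exact TB.mono key (by norm_num)

lemma P5 {n : ℕ} (x : Fin n → ℝ) (i : Fin n) (hw0 : 2.3715 ≤ ∑ j, x j ^ 2)
    (h3 : ∀ j, j ≠ i → |x j| + |x i| ≤ π / 2)
    (ha : 1.05 ≤ |x i|) (hb : |x i| ≤ 1.13) : TB x 0.001 := by
  obtain ⟨p1, p2⟩ := pi_b
  have hm : ∀ j, j ≠ i → |x j| ≤ 0.5208 := others h3 ha (by norm_num)
  have hr : (1.0946 : ℝ) ≤ ∑ j ∈ Finset.univ.erase i, x j ^ 2 := by
    have := sum_erase_ge x i hw0 hb
    norm_num at this ⊢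
    linarith
  have e1 := exp_one_le
  have key := piece x i (x0 := 1.05) (m := 0.5208) (r := 1.0946) (s5 := 0.218)
    (s7 := 0.1361) (s9 := 0.1059) (c5 := 1 / 6) (c7 := 0.1105) (c9 := 0.064)
    (b5 := 0.0106) (b7 := 0.0028) (b9 := 0.0036) (L := 1) (B := 0.14) (M2 := 0.5208 ^ 2)
    (by norm_num) (by linarith) hr hm (by linarith) (by norm_num) (by norm_num) (by norm_num)
    (by norm_num)
    (fun z hz => by
      have := abs_sinc_357 (z := z) (by linarith)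
      refine this.trans (le_of_eq ?_)
      congr 1; ring)
    (fun z hz => abs_sinc_393 (by linarith))
    (fun z hz => abs_sinc_550 (by linarith))
    (abs_sinc_max (by rw [abs_mul, abs_of_pos (by norm_num : (0:ℝ) < 5)]; linarith))
    (sinc_inv_bd (y0 := 1.05) (by norm_num) (by norm_num) (by linarith) (by norm_num))
    (sinc_inv_bd (y0 := 1.05) (by norm_num) (by norm_num) (by linarith) (by norm_num))
    (exp_neg_bd 4 (f := 0.56) (by norm_num) (by norm_num) (by norm_num))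
    (exp_neg_bd 5 (f := 0.926) (by norm_num) (by norm_num) (by norm_num))
    (exp_neg_bd 5 (f := 0.674) (by norm_num) (by norm_num) (by norm_num))
    (by linarith)
    (exp_neg_bd 2 (f := 0.035) (by norm_num) (by norm_num) (by norm_num))
    (by norm_num) le_rfl
  exact TB.mono key (by norm_num)

lemma P6 {n : ℕ} (x : Fin n → ℝ) (i : Fin n) (hw0 : 2.3715 ≤ ∑ j, x j ^ 2)
    (h3 : ∀ j, j ≠ i → |x j| + |x i| ≤ π / 2)
    (ha : 1.13 ≤ |x i|) (hb : |x i| ≤ 1.21) : TB x 0.001 := by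
  obtain ⟨p1, p2⟩ := pi_b
  have hm : ∀ j, j ≠ i → |x j| ≤ 0.4408 := others h3 ha (by norm_num)
  have hr : (0.9074 : ℝ) ≤ ∑ j ∈ Finset.univ.erase i, x j ^ 2 := by
    have := sum_erase_ge x i hw0 hb
    norm_num at this ⊢
    linarith
  have e1 := exp_one_le
  have key := piece x i (x0 := 1.13) (m := 0.4408) (r := 0.9074) (s5 := 0.177)
    (s7 := 0.1265) (s9 := 0.0984) (c5 := 1 / 6) (c7 := 1 / 6) (c9 := 0.08)
    (b5 := 0.0233) (b7 := 0.0007) (b9 := 0.003) (L := 1) (B := 0.075) (M2 := 0.4408 ^ 2)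
    (by norm_num) (by linarith) hr hm (by linarith) (by norm_num) (by norm_num) (by norm_num)
    (by norm_num)
    (fun z hz => by
      have := abs_sinc_357 (z := z) (by linarith)
      refine this.trans (le_of_eq ?_)
      congr 1; ring)
    (fun z hz => by
      have := abs_sinc_357 (z := z) (by linarith)
      refine this.trans (le_of_eq ?_)
      congr 1; ring)
    (fun z hz => abs_sinc_435 (by linarith))
    (sinc_inv_bd (y0 := 1.13) (by norm_num) (by norm_num) (by linarith) (by norm_num))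
    (sinc_inv_bd (y0 := 1.13) (by norm_num) (by norm_num) (by linarith) (by norm_num))
    (sinc_inv_bd (y0 := 1.13) (by norm_num) (by norm_num) (by linarith) (by norm_num))
    (exp_neg_bd 3 (f := 0.78) (by norm_num) (by norm_num) (by norm_num))
    (exp_neg_bd 7 (f := 0.41) (by norm_num) (by norm_num) (by norm_num))
    (exp_neg_bd 5 (f := 0.879) (by norm_num) (by norm_num) (by norm_num))
    (by linarith)
    (exp_neg_bd 2 (f := 0.66) (by norm_num) (by norm_num) (by norm_num))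
    (by norm_num) le_rfl
  exact TB.mono key (by norm_num)

end TailB

open TailB in
/-- F3t. Tail of the series (`w ≥ 2.3715`). -/
theorem tail_bound {n : ℕ} (x : Fin n → ℝ) (i : Fin n) (hw0 : 2.3715 ≤ ∑ j, x j ^ 2)
    (h1 : |x i| ≤ 1.21) (h2 : ∀ j, |x j| ≤ |x i|) (h3 : ∀ j, j ≠ i → |x j| + |x i| ≤ π / 2) :
    Summable (fun k : ℕ => |∏ j, sinc ((2 * ((k + 2 : ℕ) : ℝ) + 1) * x j)| / (2 * ((k + 2 : ℕ) : ℝ) + 1)) ∧
    ∑' k : ℕ, |∏ j, sinc ((2 * ((k + 2 : ℕ) : ℝ) + 1) * x j)| / (2 * ((k + 2 : ℕ) : ℝ) + 1) ≤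
      if |x i| ≤ 1.05 then 0.0008 else 0.001 := by
  change TB x _
  split_ifs with hc
  · rcases le_total |x i| (π / 4) with h | h
    · exact P1 x i hw0 h2 h
    rcases le_total |x i| 0.857 with h' | h'
    · exact P2 x i hw0 h3 h h'
    rcases le_total |x i| 0.95 with h'' | h''
    · exact P3 x i hw0 h3 h' h''
    · exact P4 x i hw0 h3 h'' hc
  · push Not at hc
    rcases le_total |x i| 1.13 with h | h
    · exact P5 x i hw0 h3 hc.le h
    · exact P6 x i hw0 h3 h h1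

end Pool.Agent.Helper89.FA
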